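import Pool.Agent.Helper22_DEN2.Stmt

/-!
# FAM: an orthonormal family of equivariant functions
-/

open scoped BigOperators

namespace Pool.Agent.DEN.H632

theorem fam : FamStmt := by
  classical
  intro G X _ _ Γ M N x₀ hNM hMΓ hNn hMn hidx hfin hfree ψ hψm hψ1 hψN
  have hidx2 : N.relIndex M * M.relIndex Γ = N.relIndex Γ :=
    Subgroup.relIndex_mul_relIndex N M Γ hNM hMΓ
  have hi1 : N.relIndex M ≠ 0 := fun h => hidx (by rw [← hidx2, h, zero_mul])
  have hi2 : M.relIndex Γ ≠ 0 := fun h => hidx (by rw [← hidx2, h, mul_zero])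
  have hf1 : Finite (M ⧸ N.subgroupOf M) := Nat.finite_of_card_ne_zero hi1
  have hf2 : Finite (Γ ⧸ M.subgroupOf Γ) := Nat.finite_of_card_ne_zero hi2
  -- the orbits
  have horb : ∀ (H : Subgroup G) (a b : X),
      (Quotient.mk'' a : MulAction.orbitRel.Quotient H X) = Quotient.mk'' b ↔
        ∃ h ∈ H, a = h • b := by
    intro H a b
    rw [Quotient.eq'', MulAction.orbitRel_apply]
    constructor
    · rintro ⟨h, hh⟩
      exact ⟨h.1, h.2, hh.symm⟩
    · rintro ⟨h, hh, e⟩
      exact ⟨⟨h, hh⟩, e.symm⟩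
  let Y : Set (MulAction.orbitRel.Quotient M X) := {o | ∃ γ ∈ Γ, o = Quotient.mk'' (γ • x₀)}
  have hYfin : Y.Finite := by
    let p : Γ ⧸ M.subgroupOf Γ → MulAction.orbitRel.Quotient M X :=
      fun c => Quotient.mk'' ((c.out : G) • x₀)
    apply (Set.finite_range p).subset
    rintro o ⟨γ, hγ, rfl⟩
    refine ⟨QuotientGroup.mk ⟨γ, hγ⟩, ?_⟩
    have h1 : ((QuotientGroup.mk (⟨γ, hγ⟩ : Γ) : Γ ⧸ M.subgroupOf Γ).out)⁻¹ * ⟨γ, hγ⟩ ∈
        M.subgroupOf Γ := by
      rw [← QuotientGroup.eq]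
      exact Quotient.out_eq' _
    show Quotient.mk'' _ = Quotient.mk'' _
    rw [horb]
    set c := (QuotientGroup.mk (⟨γ, hγ⟩ : Γ) : Γ ⧸ M.subgroupOf Γ).out with hc
    have h2 : ((c : G)⁻¹ * γ) ∈ M := by
      have := Subgroup.mem_subgroupOf.mp h1
      exact this
    have h3 := hMn γ hγ _ (inv_mem h2)
    refine ⟨_, h3, ?_⟩
    rw [smul_smul]
    congr 1
    group
  have hYf : Finite Y := hYfin
  have hch : ∀ o : Y, ∃ γ : G, γ ∈ Γ ∧ o.1 = Quotient.mk'' (γ • x₀) := by
    rintro ⟨o, γ, hγ, h⟩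
    exact ⟨γ, hγ, h⟩
  choose g hg ho using hch
  -- the functions
  let c : ℝ := (Nat.card (M ⧸ N.subgroupOf M) : ℝ)
  have hcpos : 0 < c := by
    have : 0 < Nat.card (M ⧸ N.subgroupOf M) := Nat.pos_of_ne_zero hi1
    show (0 : ℝ) < ((Nat.card (M ⧸ N.subgroupOf M) : ℕ) : ℝ)
    exact_mod_cast this
  let a : ℂ := (((Real.sqrt c)⁻¹ : ℝ) : ℂ)
  let F : Y → X → ℂ := fun o x =>
    if h : ∃ m ∈ M, x = m • (g o • x₀) then ψ h.choose * a else 0
  have hF1 : ∀ (o : Y) (m : G), m ∈ M → F o (m • (g o • x₀)) = ψ m * a := by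
    intro o m hm
    have hex : ∃ m' ∈ M, m • (g o • x₀) = m' • (g o • x₀) := ⟨m, hm, rfl⟩
    show (if h : ∃ m' ∈ M, m • (g o • x₀) = m' • (g o • x₀) then ψ h.choose * a else 0) = _
    rw [dif_pos hex]
    have h1 := hex.choose_spec
    have h2 : m⁻¹ * hex.choose = 1 := by
      apply hfree (g o) (hg o) _ (mul_mem (inv_mem hm) h1.1)
      rw [mul_smul, ← h1.2, inv_smul_smul]
    exact congrArg (fun t => ψ t * a) (inv_mul_eq_one.mp h2).symm
  have hF0 : ∀ (o : Y) (x : X), (¬ ∃ m ∈ M, x = m • (g o • x₀)) → F o x = 0 := by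
    intro o x h
    show (if h : ∃ m ∈ M, x = m • (g o • x₀) then ψ h.choose * a else 0) = 0
    rw [dif_neg h]
  have hFe : ∀ (o : Y) (γ : G), γ ∈ M → ∀ x, F o (γ • x) = ψ γ * F o x := by
    intro o γ hγ x
    by_cases h : ∃ m ∈ M, x = m • (g o • x₀)
    · obtain ⟨m, hm, rfl⟩ := h
      rw [hF1 o m hm, smul_smul, hF1 o _ (mul_mem hγ hm), hψm γ hγ m hm, mul_assoc]
    · have h' : ¬ ∃ m ∈ M, γ • x = m • (g o • x₀) := by
        rintro ⟨m, hm, e⟩
        apply h
        refine ⟨γ⁻¹ * m, mul_mem (inv_mem hγ) hm, ?_⟩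
        rw [mul_smul, ← e, inv_smul_smul]
      rw [hF0 o _ h, hF0 o _ h', mul_zero]
  have hne : ∀ o o' : Y, o ≠ o' → ∀ x, F o x = 0 ∨ F o' x = 0 := by
    intro o o' hoo x
    by_contra hcon
    push Not at hcon
    obtain ⟨h1, h2⟩ := hcon
    have e1 : ∃ m ∈ M, x = m • (g o • x₀) := by
      by_contra h
      exact h1 (hF0 o x h)
    have e2 : ∃ m ∈ M, x = m • (g o' • x₀) := by
      by_contra h
      exact h2 (hF0 o' x h)
    apply hoo
    apply Subtype.ext
    rw [ho o, ho o', ← (horb M x _).mpr e1, ← (horb M x _).mpr e2]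
  have ha2 : a * a = (c : ℂ)⁻¹ := by
    show (((Real.sqrt c)⁻¹ : ℝ) : ℂ) * (((Real.sqrt c)⁻¹ : ℝ) : ℂ) = _
    rw [← Complex.ofReal_mul, ← Complex.ofReal_inv, ← mul_inv, Real.mul_self_sqrt hcpos.le]
  have hnorm : ∀ m ∈ M, (starRingEnd ℂ) (ψ m * a) * (ψ m * a) = (c : ℂ)⁻¹ := by
    intro m hm
    have h1 : (starRingEnd ℂ) (ψ m) * ψ m = 1 := by
      rw [Complex.conj_mul', hψ1 m hm]
      simp
    have h2 : (starRingEnd ℂ) a = a := Complex.conj_ofReal _
    rw [map_mul, h2]
    calc (starRingEnd ℂ) (ψ m) * a * (ψ m * a) = ((starRingEnd ℂ) (ψ m) * ψ m) * (a * a) := by ring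
      _ = _ := by rw [h1, ha2, one_mul]
  have hmain : ∀ o o' : Y, ∑ᶠ z : MulAction.orbitRel.Quotient N X,
        (starRingEnd ℂ) (F o z.out) * F o' z.out / Nat.card (MulAction.stabilizer N z.out)
          = if o = o' then 1 else 0 := by
    intro o o'
    by_cases hoo : o = o'
    · subst hoo
      rw [if_pos rfl]
      -- the map `E`
      have hwd : ∀ m m' : M, m⁻¹ * m' ∈ N.subgroupOf M →
          (Quotient.mk'' ((m : G) • (g o • x₀)) : MulAction.orbitRel.Quotient N X) =
            Quotient.mk'' ((m' : G) • (g o • x₀)) := by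
        intro m m' h
        rw [horb]
        have h1 : ((m : G)⁻¹ * m') ∈ N := Subgroup.mem_subgroupOf.mp h
        have h2 := hNn m (hMΓ m.2) _ (inv_mem h1)
        refine ⟨_, h2, ?_⟩
        have h3 : (m : G) = ((m : G) * ((m : G)⁻¹ * (m' : G))⁻¹ * (m : G)⁻¹) * (m' : G) := by
          group
        conv_lhs => rw [h3]
        rw [mul_smul]
      let E : M ⧸ N.subgroupOf M → MulAction.orbitRel.Quotient N X :=
        Quotient.lift (fun m : M =>
          (Quotient.mk'' ((m : G) • (g o • x₀)) : MulAction.orbitRel.Quotient N X))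
          (fun m m' h => hwd m m' (QuotientGroup.leftRel_apply.mp h))
      have hE : ∀ m : M, E (QuotientGroup.mk m) = Quotient.mk'' ((m : G) • (g o • x₀)) :=
        fun m => rfl
      have hEinj : Function.Injective E := by
        intro u v
        obtain ⟨m, rfl⟩ := QuotientGroup.mk_surjective u
        obtain ⟨m', rfl⟩ := QuotientGroup.mk_surjective v
        intro h
        rw [hE, hE, horb] at h
        obtain ⟨ν, hν, e⟩ := h
        rw [QuotientGroup.eq, Subgroup.mem_subgroupOf]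
        have h1 : ((m : G)⁻¹ * (ν * m')) = 1 := by
          apply hfree (g o) (hg o) _ (mul_mem (inv_mem m.2) (mul_mem (hNM hν) m'.2))
          rw [mul_smul, mul_smul, ← e, inv_smul_smul]
        have h2 : (m : G) = ν * m' := inv_mul_eq_one.mp h1
        have h3 := hNn (m' : G)⁻¹ (inv_mem (hMΓ m'.2)) _ (inv_mem hν)
        show (m : G)⁻¹ * (m' : G) ∈ N
        rw [h2]
        have h4 : (ν * (m' : G))⁻¹ * (m' : G) = (m' : G)⁻¹ * ν⁻¹ * (m' : G)⁻¹⁻¹ := by group
        rw [h4]
        exact h3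
      have hout : ∀ m : M, ∃ m' ∈ M,
          (E (QuotientGroup.mk m)).out = m' • (g o • x₀) := by
        intro m
        have h1 : (Quotient.mk'' (E (QuotientGroup.mk m)).out :
            MulAction.orbitRel.Quotient N X) = Quotient.mk'' ((m : G) • (g o • x₀)) :=
          (Quotient.out_eq' _).trans (hE m)
        rw [horb] at h1
        obtain ⟨ν, hν, e⟩ := h1
        exact ⟨ν * m, mul_mem (hNM hν) m.2, by rw [e, smul_smul]⟩
      have hsupp : Function.support (fun z : MulAction.orbitRel.Quotient N X =>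
          (starRingEnd ℂ) (F o z.out) * F o z.out / Nat.card (MulAction.stabilizer N z.out)) ⊆
          Set.range E := by
        intro z hz
        have h1 : F o z.out ≠ 0 := by
          intro h0
          apply hz
          simp only [h0, mul_zero, zero_div]
        have e1 : ∃ m ∈ M, z.out = m • (g o • x₀) := by
          by_contra h
          exact h1 (hF0 o _ h)
        obtain ⟨m, hm, e⟩ := e1
        refine ⟨QuotientGroup.mk ⟨m, hm⟩, ?_⟩
        rw [hE]
        show Quotient.mk'' (m • (g o • x₀)) = z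
        rw [← e]
        exact Quotient.out_eq' z
      rw [← Set.indicator_eq_self.mpr hsupp, ← finsum_mem_def, finsum_mem_range hEinj]
      have hval : ∀ u : M ⧸ N.subgroupOf M,
          (starRingEnd ℂ) (F o (E u).out) * F o (E u).out /
            Nat.card (MulAction.stabilizer N (E u).out) = (c : ℂ)⁻¹ := by
        intro u
        obtain ⟨m, rfl⟩ := QuotientGroup.mk_surjective u
        obtain ⟨m', hm', e⟩ := hout m
        rw [e, hF1 o m' hm', hnorm m' hm']
        have hst : Nat.card (MulAction.stabilizer N (m' • (g o • x₀))) = 1 := by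
          rw [Nat.card_eq_one_iff_unique]
          constructor
          · constructor
            intro s t
            have hone : ∀ s : MulAction.stabilizer N (m' • (g o • x₀)), ((s.1 : N) : G) = 1 := by
              intro s
              have h1 : ((s.1 : N) : G) • (m' • (g o • x₀)) = m' • (g o • x₀) :=
                MulAction.mem_stabilizer_iff.mp s.2
              have h2 := hfree (m' * g o) (mul_mem (hMΓ hm') (hg o)) ((s.1 : N) : G)
                (hNM s.1.2)
              rw [mul_smul] at h2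
              exact h2 h1
            exact Subtype.ext (Subtype.ext ((hone s).trans (hone t).symm))
          · exact ⟨1⟩
        rw [hst]
        simp
      rw [finsum_congr hval]
      have := Fintype.ofFinite (M ⧸ N.subgroupOf M)
      rw [finsum_eq_sum_of_fintype, Finset.sum_const, Finset.card_univ,
        ← Nat.card_eq_fintype_card, nsmul_eq_mul]
      have h3 : ((Nat.card (M ⧸ N.subgroupOf M) : ℕ) : ℂ) = (c : ℂ) := by
        show _ = (((Nat.card (M ⧸ N.subgroupOf M) : ℕ) : ℝ) : ℂ)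
        simp
      rw [h3]
      exact mul_inv_cancel₀ (by exact_mod_cast hcpos.ne')
    · rw [if_neg hoo]
      apply finsum_eq_zero_of_forall_eq_zero
      intro z
      rcases hne o o' hoo z.out with h | h
      · rw [h, map_zero, zero_mul, zero_div]
      · rw [h, mul_zero, zero_div]
  -- the count
  have hcount : M.relIndex Γ ≤ Nat.card (MulAction.stabilizer Γ x₀) * Nat.card Y := by
    let Q : (MulAction.stabilizer Γ x₀) × Y → Γ ⧸ M.subgroupOf Γ :=
      fun p => QuotientGroup.mk ((⟨g p.2, hg p.2⟩ : Γ) * p.1.1)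
    have hQ : Function.Surjective Q := by
      intro w
      obtain ⟨γ, rfl⟩ := QuotientGroup.mk_surjective w
      let o : Y := ⟨Quotient.mk'' ((γ : G) • x₀), γ, γ.2, rfl⟩
      have h1 : (Quotient.mk'' ((γ : G) • x₀) : MulAction.orbitRel.Quotient M X) =
        Quotient.mk'' (g o • x₀) := ho o
      rw [horb] at h1
      obtain ⟨m, hm, e⟩ := h1
      have hs : ((⟨g o, hg o⟩ : Γ)⁻¹ * (⟨m, hMΓ hm⟩ : Γ)⁻¹ * γ) ∈ MulAction.stabilizer Γ x₀ := by
        rw [MulAction.mem_stabilizer_iff, mul_smul, mul_smul]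
        show (g o)⁻¹ • m⁻¹ • (γ : G) • x₀ = x₀
        rw [e, inv_smul_smul, inv_smul_smul]
      refine ⟨(⟨_, hs⟩, o), ?_⟩
      show QuotientGroup.mk _ = QuotientGroup.mk _
      rw [QuotientGroup.eq, Subgroup.mem_subgroupOf]
      show ((g o * ((g o)⁻¹ * m⁻¹ * (γ : G)))⁻¹ * (γ : G)) ∈ M
      have h3 := hMn (γ : G)⁻¹ (inv_mem γ.2) m hm
      have h4 : (g o * ((g o)⁻¹ * m⁻¹ * (γ : G)))⁻¹ * (γ : G) =
        (γ : G)⁻¹ * m * (γ : G)⁻¹⁻¹ := by group
      rw [h4]
      exact h3
    have := Nat.card_le_card_of_surjective Q hQ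
    rw [Nat.card_prod] at this
    exact this
  let eY := Finite.equivFin Y
  refine ⟨Nat.card Y, fun j => F (eY.symm j), hcount, fun j γ hγ x => hFe _ γ hγ x, ?_⟩
  intro i j
  rw [hmain]
  by_cases hij : i = j
  · subst hij
    rw [if_pos rfl, if_pos rfl]
  · rw [if_neg hij, if_neg]
    intro h
    exact hij (eY.symm.injective h)

end Pool.Agent.DEN.H632
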