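import Pool.Agent.Helper22_DEN2.Stmt

/-!
# RTC: dominant roots
-/

open scoped BigOperators

namespace Pool.Agent.DEN.H632

section
variable {r : ℕ} {C : Matrix (Fin r) (Fin r) ℤ}

theorem ipal (i : Fin r) (l : Fin r → ℤ) : ip C (al i) l = ∑ j, C i j * l j := by
  unfold ip
  rw [Finset.sum_eq_single i]
  · simp [al]
  · intro j _ hj
    apply Finset.sum_eq_zero
    intro k _
    simp [al, Pi.single_eq_of_ne hj]
  · simp

theorem ipexp (x l : Fin r → ℤ) : ip C x l = ∑ i, x i * ip C (al i) l := by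
  simp only [ipal, Finset.mul_sum]
  unfold ip
  refine Finset.sum_congr rfl fun i _ => Finset.sum_congr rfl fun j _ => by ring

theorem vec_exp (x : Fin r → ℤ) : x = ∑ j, x j • (al j : Fin r → ℤ) := by
  funext k
  simp [al, Finset.sum_apply, Pi.single_apply]

end

theorem rtc (hRF : RootFinStmt) (hRS : RootSignStmt) : RtcStmt := by
  intro r C hC
  obtain ⟨S1, S2, S3, S4⟩ := hRS r C hC
  have hfin := hRF r C hC
  have r1 : ∀ j, ∃ θ : Rt C, IsDom C θ.1 ∧ 0 < θ.1 j := by
    intro j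
    have hne : ({β : Rt C | 0 < β.1 j}).Nonempty := ⟨hC.sr j, by
      show 0 < al j j
      simp [al]⟩
    obtain ⟨β, hβ, hmax⟩ := Set.exists_max_image {β : Rt C | 0 < β.1 j} (fun β => ht β)
      (Set.toFinite _) hne
    refine ⟨β, ?_, hβ⟩
    intro k
    by_contra hneg
    have hneg : ip C (al k) β.1 < 0 := not_le.mp hneg
    have hb := (hC.ip_bound (hC.sr k) β).1
    rw [SimplyLaced.sr_val] at hb
    have h1 : ip C (al k) β.1 = -1 ∨ ip C (al k) β.1 = -2 := by omega
    rcases h1 with h1 | h1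
    · have h2 : ip C ((hC.sr k).1 + β.1) ((hC.sr k).1 + β.1) = 2 := hC.ip_add_self h1
      have h3 : 0 < (⟨(hC.sr k).1 + β.1, h2⟩ : Rt C).1 j := by
        show 0 < (al k : Fin r → ℤ) j + β.1 j
        have : 0 ≤ (al k : Fin r → ℤ) j := by
          unfold al
          by_cases h : j = k
          · subst h; simp
          · simp [Pi.single_eq_of_ne h]
        have h4 : 0 < β.1 j := hβ
        omega
      have h4 := hmax ⟨(hC.sr k).1 + β.1, h2⟩ h3
      have h5 : ht (⟨(hC.sr k).1 + β.1, h2⟩ : Rt C) = 1 + ht β := by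
        show ∑ i, ((al k : Fin r → ℤ) i + β.1 i) = 1 + ∑ i, β.1 i
        rw [Finset.sum_add_distrib]
        congr 1
        simp [al]
      simp only [h5] at h4
      omega
    · have h2 := hC.ip_eq_neg_two (β := hC.sr k) (γ := β) h1
      have h3 : 0 < β.1 j := hβ
      rw [h2, Rt.neg_val] at h3
      have h4 : 0 < -(al k : Fin r → ℤ) j := h3
      have : 0 ≤ (al k : Fin r → ℤ) j := by
        unfold al
        by_cases h : j = k
        · subst h; simp
        · simp [Pi.single_eq_of_ne h]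
      omega
  have r2 : ∀ θ ν : Rt C, IsDom C θ.1 → ν.Pos → 0 ≤ ip C ν.1 θ.1 := by
    intro θ ν hθ hν
    rw [ipexp]
    exact Finset.sum_nonneg fun k _ => mul_nonneg (hν k) (hθ k)
  have r3 : ∀ θ ν : Rt C, IsDom C θ.1 → (∀ i, θ.1 i ≤ ν.1 i) → ν = θ := by
    intro θ ν hθ hle
    have h1 : 0 ≤ ip C (ν.1 - θ.1) θ.1 := by
      rw [ipexp]
      exact Finset.sum_nonneg fun k _ => mul_nonneg (sub_nonneg.mpr (hle k)) (hθ k)
    rw [ip_sub_left, θ.2] at h1
    have h2 := (hC.ip_bound ν θ).2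
    exact hC.ip_eq_two (by omega)
  have r4 : ∀ θ : Rt C, IsDom C θ.1 → θ.Pos := by
    intro θ hθ
    rcases S1 θ with h | h
    · exact h
    · have h1 := r2 θ θ.neg hθ h
      rw [Rt.neg_val, ip_neg_left, θ.2] at h1
      omega
  have r5 : ∀ θ θ' : Rt C, IsDom C θ.1 → IsDom C θ'.1 → θ ≠ θ' → ip C θ.1 θ'.1 = 0 := by
    intro θ θ' hθ hθ' hne
    have h1 := r2 θ' θ hθ' (r4 θ hθ)
    have h2 := (hC.ip_bound θ θ').2
    by_contra h0
    have h3 : ip C θ.1 θ'.1 = 1 ∨ ip C θ.1 θ'.1 = 2 := by omega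
    rcases h3 with h3 | h3
    · have h4 := hC.ip_sub_self h3
      rcases S1 ⟨θ.1 - θ'.1, h4⟩ with h | h
      · apply hne
        exact r3 θ' θ hθ' (fun i => by
          have h5 : 0 ≤ θ.1 i - θ'.1 i := h i
          omega)
      · apply hne
        exact (r3 θ θ' hθ (fun i => by
          have h5 : 0 ≤ -(θ.1 i - θ'.1 i) := h i
          omega)).symm
    · exact hne (hC.ip_eq_two h3)
  refine ⟨r1, r2, r3, r4, r5, ?_, ?_⟩
  · intro K _ θ
    by_contra hcon
    push Not at hcon
    obtain ⟨p, hp⟩ := CharP.exists K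
    have h1 : ∀ i, (p : ℤ) ∣ θ.1 i := fun i => (CharP.intCast_eq_zero_iff K p (θ.1 i)).mp (hcon i)
    choose μ hμ using h1
    have h2 : θ.1 = (p : ℤ) • μ := by
      funext i
      rw [Pi.smul_apply, smul_eq_mul]
      exact hμ i
    have h3 := θ.2
    rw [h2, ip_smul_left, ip_smul_right] at h3
    obtain ⟨k, hk⟩ := S2 μ
    rw [hk] at h3
    have h4 : (p : ℤ) ∣ 1 := ⟨p * k, by nlinarith⟩
    have h5 := (CharP.intCast_eq_zero_iff K p 1).mpr h4
    simp at h5
  · intro σ s hs i
    by_contra hcon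
    push Not at hcon
    have hsinv : ∀ β : Rt C, (s.symm β).1 = σ.symm β.1 := by
      intro β
      have h := hs (s.symm β)
      rw [Equiv.apply_symm_apply] at h
      rw [h, AddEquiv.symm_apply_apply]
    have hc : ∀ j, (σ.symm (al j)) i ≤ 0 := by
      intro j
      by_contra h
      have h := not_le.mp h
      have h1 : (s.symm (hC.sr j)).1 = σ.symm (al j) := hsinv (hC.sr j)
      have h2 := (hcon (s.symm (hC.sr j)) (by rw [h1]; exact h)).1 j
      exact h2 (Equiv.apply_symm_apply _ _)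
    have hexp : ∀ x : Fin r → ℤ, (σ.symm x) i = ∑ j, x j * (σ.symm (al j)) i := by
      intro x
      conv_lhs => rw [vec_exp x]
      rw [map_sum, Finset.sum_apply]
      refine Finset.sum_congr rfl fun j _ => ?_
      rw [map_zsmul, Pi.smul_apply, smul_eq_mul]
    have hzero : ∀ j, (σ.symm (al j)) i = 0 := by
      intro j
      obtain ⟨θ, hθ, hj⟩ := r1 j
      have h0 : 0 ≤ (σ.symm θ.1) i := by
        by_contra h
        have h := not_le.mp h
        have h1 : (s.symm θ.neg).1 = -σ.symm θ.1 := by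
          rw [hsinv, Rt.neg_val, map_neg]
        have h2 := (hcon (s.symm θ.neg) (by rw [h1, Pi.neg_apply]; omega)).2 θ hθ
        exact h2 (Equiv.apply_symm_apply _ _)
      have h1 : ∀ k ∈ Finset.univ, θ.1 k * (σ.symm (al k)) i ≤ 0 := fun k _ =>
        mul_nonpos_of_nonneg_of_nonpos (r4 θ hθ k) (hc k)
      have h2 : ∑ k, θ.1 k * (σ.symm (al k)) i = 0 :=
        le_antisymm (Finset.sum_nonpos h1) (by rw [← hexp]; exact h0)
      have h3 := (Finset.sum_eq_zero_iff_of_nonpos h1).mp h2 j (Finset.mem_univ j)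
      rcases mul_eq_zero.mp h3 with h4 | h4
      · omega
      · exact h4
    have h1 := hexp (σ (al i))
    rw [AddEquiv.symm_apply_apply, Finset.sum_eq_zero (fun j _ => by rw [hzero j, mul_zero])] at h1
    simp [al] at h1

end Pool.Agent.DEN.H632
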